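import Mathlib

/-!
Nested intervals: aligning lacunary phases.
-/

open Set

namespace Pool.Agent.V1191.Car

theorem nest_step {a L u v : ℝ} (hL : 0 < L) (h : 8 * Real.pi / 3 ≤ (v - u) * L) :
    ∃ u' v', u ≤ u' ∧ v' ≤ v ∧ u' ≤ v' ∧ (v' - u') * L = 2 * Real.pi / 3 ∧
      ∀ μ ∈ Icc u' v', 1 / 2 ≤ Real.cos (a - μ * L) := by
  have hpi := Real.pi_pos
  obtain ⟨k, hk1, hk2⟩ : ∃ k : ℤ, (a - v * L + Real.pi / 3) / (2 * Real.pi) ≤ k ∧
      (k : ℝ) < (a - v * L + Real.pi / 3) / (2 * Real.pi) + 1 :=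
    ⟨⌈(a - v * L + Real.pi / 3) / (2 * Real.pi)⌉, Int.le_ceil _, Int.ceil_lt_add_one _⟩
  have h2pi : 0 < 2 * Real.pi := by linarith
  rw [div_le_iff₀ h2pi] at hk1
  have hk3 : (k : ℝ) * (2 * Real.pi) < (a - v * L + Real.pi / 3) + 2 * Real.pi := by
    have := mul_lt_mul_of_pos_right hk2 h2pi
    rw [add_mul, div_mul_cancel₀ _ h2pi.ne', one_mul] at this
    exact this
  refine ⟨(a - k * (2 * Real.pi) - Real.pi / 3) / L, (a - k * (2 * Real.pi) + Real.pi / 3) / L,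
    ?_, ?_, ?_, ?_, ?_⟩
  · rw [le_div_iff₀ hL]; linarith
  · rw [div_le_iff₀ hL]; linarith
  · apply div_le_div_of_nonneg_right _ hL.le; linarith
  · field_simp; ring
  · intro μ hμ
    obtain ⟨h1, h2⟩ := hμ
    rw [div_le_iff₀ hL] at h1
    rw [le_div_iff₀ hL] at h2
    have e : Real.cos (a - μ * L) = Real.cos |a - μ * L - k * (2 * Real.pi)| := by
      rw [Real.cos_abs, Real.cos_sub_int_mul_two_pi]
    rw [e, ← Real.cos_pi_div_three]
    apply Real.cos_le_cos_of_nonneg_of_le_pi (abs_nonneg _) (by linarith)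
    rw [abs_le]
    constructor <;> linarith

theorem nest (J : ℕ) : ∀ (a L : ℕ → ℝ) (u v : ℝ), u ≤ v → (∀ j < J, 0 < L j) →
    8 * Real.pi / 3 ≤ (v - u) * L 0 → (∀ j, j + 1 < J → 4 * L j ≤ L (j + 1)) →
    ∃ μ ∈ Icc u v, ∀ j < J, 1 / 2 ≤ Real.cos (a j - μ * L j) := by
  induction J with
  | zero =>
    intro a L u v huv _ _ _
    exact ⟨u, ⟨le_rfl, huv⟩, fun j hj => absurd hj (Nat.not_lt_zero j)⟩
  | succ J ih =>
    intro a L u v huv hL h0 hgr
    obtain ⟨u', v', h1, h2, h3, h4, h5⟩ := nest_step (a := a 0) (hL 0 (Nat.succ_pos J)) h0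
    rcases Nat.eq_zero_or_pos J with hJ | hJ
    · subst hJ
      refine ⟨u', ⟨h1, h3.trans h2⟩, ?_⟩
      intro j hj
      have : j = 0 := by omega
      subst this
      exact h5 u' ⟨le_rfl, h3⟩
    · obtain ⟨μ, hμ, hc⟩ := ih (fun j => a (j + 1)) (fun j => L (j + 1)) u' v' h3
        (fun j hj => hL (j + 1) (by omega)) (by
          have := hgr 0 (by omega)
          have h6 : (v' - u') * (4 * L 0) ≤ (v' - u') * L (0 + 1) :=
            mul_le_mul_of_nonneg_left this (by linarith)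
          calc 8 * Real.pi / 3 = (v' - u') * (4 * L 0) := by
                rw [show (v' - u') * (4 * L 0) = 4 * ((v' - u') * L 0) by ring, h4]; ring
            _ ≤ _ := h6)
        (fun j hj => hgr (j + 1) (by omega))
      refine ⟨μ, ⟨h1.trans hμ.1, hμ.2.trans h2⟩, ?_⟩
      intro j hj
      rcases j with _ | j
      · exact h5 μ hμ
      · exact hc j (by omega)

end Pool.Agent.V1191.Car
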