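import Mathlib

/-!
Oscillatory integrals for the Carleson operator with phase `|t|^ε`.
-/

open MeasureTheory Set Filter Topology

namespace Pool.Agent.V1191.Car

/-- `e^{it}` -/
noncomputable def E (t : ℝ) : ℂ := Complex.exp (Complex.I * t)

theorem E_norm (t : ℝ) : ‖E t‖ = 1 := Complex.norm_exp_I_mul_ofReal t

theorem E_add (s t : ℝ) : E (s + t) = E s * E t := by
  unfold E; rw [← Complex.exp_add]; congr 1; push_cast; ring

theorem E_re (t : ℝ) : (E t).re = Real.cos t := by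
  unfold E; rw [mul_comm, Complex.exp_ofReal_mul_I_re]

theorem E_cont : Continuous E := by unfold E; fun_prop

theorem E_deriv (t : ℝ) : HasDerivAt E (Complex.I * E t) t := by
  unfold E
  have h1 : HasDerivAt (fun t : ℝ => Complex.I * (t : ℂ)) Complex.I t := by
    have := (Complex.ofRealCLM.hasDerivAt (x := t)).const_mul Complex.I
    simpa using this
  have := h1.cexp
  rw [mul_comm] at this
  exact this

theorem E_sub_one (t : ℝ) : ‖E t - 1‖ ≤ |t| := by
  have := @Real.norm_exp_I_mul_ofReal_sub_one_le t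
  rwa [Real.norm_eq_abs] at this

theorem E_sub_one' (t : ℝ) : ‖E t - 1‖ ≤ 2 := by
  calc ‖E t - 1‖ ≤ ‖E t‖ + ‖(1 : ℂ)‖ := norm_sub_le _ _
    _ = 2 := by rw [E_norm]; norm_num

/-- integration by parts bound -/
theorem ibp {a b : ℝ} (hab : a ≤ b) {u u' v v' : ℝ → ℂ} {k : ℝ → ℝ} {c : ℝ}
    (hu : ∀ t ∈ Icc a b, HasDerivAt u (u' t) t) (hv : ∀ t ∈ Icc a b, HasDerivAt v (v' t) t)
    (hu' : IntervalIntegrable u' volume a b) (hv' : IntervalIntegrable v' volume a b)
    (hk : IntervalIntegrable k volume a b) (huk : ∀ t ∈ Icc a b, ‖u' t‖ ≤ k t)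
    (hvc : ∀ t ∈ Icc a b, ‖v t‖ ≤ c) :
    ‖∫ t in a..b, u t * v' t‖ ≤ c * (‖u b‖ + ‖u a‖ + ∫ t in a..b, k t) := by
  have hc : 0 ≤ c := (norm_nonneg _).trans (hvc a ⟨le_rfl, hab⟩)
  rw [intervalIntegral.integral_mul_deriv_eq_deriv_mul
    (fun t ht => hu t (by rwa [uIcc_of_le hab] at ht))
    (fun t ht => hv t (by rwa [uIcc_of_le hab] at ht)) hu' hv']
  have h1 : ‖∫ t in a..b, u' t * v t‖ ≤ ∫ t in a..b, c * k t := by
    apply intervalIntegral.norm_integral_le_of_norm_le hab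
    · apply Eventually.of_forall
      intro t ht
      have ht' : t ∈ Icc a b := ⟨ht.1.le, ht.2⟩
      rw [norm_mul, mul_comm]
      exact mul_le_mul (hvc t ht') (huk t ht') (norm_nonneg _) hc
    · exact hk.const_mul c
  rw [intervalIntegral.integral_const_mul] at h1
  calc ‖u b * v b - u a * v a - ∫ t in a..b, u' t * v t‖ ≤
      ‖u b * v b‖ + ‖u a * v a‖ + ‖∫ t in a..b, u' t * v t‖ := by
        refine (norm_sub_le _ _).trans ?_
        gcongr
        exact norm_sub_le _ _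
    _ ≤ c * ‖u b‖ + c * ‖u a‖ + c * ∫ t in a..b, k t := by
        rw [norm_mul, norm_mul, mul_comm ‖u b‖, mul_comm ‖u a‖]
        exact add_le_add (add_le_add
          (mul_le_mul_of_nonneg_right (hvc b ⟨hab, le_rfl⟩) (norm_nonneg _))
          (mul_le_mul_of_nonneg_right (hvc a ⟨le_rfl, hab⟩) (norm_nonneg _))) h1
    _ = _ := by ring

/-- the phase function -/
noncomputable def th (ε t : ℝ) : ℝ := (t ^ ε - 1) / ε

theorem th_cont {ε : ℝ} (hε : 0 < ε) : Continuous (th ε) := by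
  unfold th
  exact ((Real.continuous_rpow_const hε.le).sub continuous_const).div_const _

theorem th_deriv {ε t : ℝ} (hε : 0 < ε) (ht : 0 < t) : HasDerivAt (th ε) (t ^ (ε - 1)) t := by
  unfold th
  have h1 := ((Real.hasDerivAt_rpow_const (x := t) (p := ε) (Or.inl ht.ne')).sub_const 1).div_const ε
  refine h1.congr_deriv ?_
  field_simp

theorem th_le {ε t : ℝ} (hε : 0 < ε) (hε1 : ε ≤ 1) (ht : 0 < t) : th ε t ≤ t - 1 := by
  unfold th
  rw [div_le_iff₀ hε]
  have := rpow_one_add_le_one_add_mul_self (s := t - 1) (by linarith) hε.le hε1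
  rw [add_sub_cancel] at this
  linarith

theorem th_ge {ε t : ℝ} (hε : 0 < ε) (hε1 : ε ≤ 1) (ht : 0 < t) : -(1 / t - 1) ≤ th ε t := by
  have h1 := th_le hε hε1 (one_div_pos.mpr ht)
  unfold th at h1 ⊢
  have h2 : (1 / t) ^ ε = (t ^ ε)⁻¹ := by rw [one_div, Real.inv_rpow ht.le]
  rw [h2] at h1
  have h3 : 0 < t ^ ε := Real.rpow_pos_of_pos ht _
  have h4 : 1 - t ^ ε ≤ (t ^ ε)⁻¹ - 1 := by
    rw [← sub_nonneg]
    have : (t ^ ε)⁻¹ - 1 - (1 - t ^ ε) = (t ^ ε - 1) ^ 2 / t ^ ε := by field_simp; ring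
    rw [this]; positivity
  have h5 : (1 - t ^ ε) / ε ≤ ((t ^ ε)⁻¹ - 1) / ε := by gcongr
  have h6 : (t ^ ε - 1) / ε = -((1 - t ^ ε) / ε) := by ring
  rw [h6]
  linarith

theorem th_abs {ε t s B : ℝ} (hε : 0 < ε) (hε1 : ε ≤ 1) (hs : 0 < s) (hst : s ≤ t) (htB : t ≤ B) :
    |th ε t| ≤ B + 1 / s := by
  have ht : 0 < t := hs.trans_le hst
  have h1 := th_le hε hε1 ht
  have h2 := th_ge hε hε1 ht
  have h3 : 1 / t ≤ 1 / s := one_div_le_one_div_of_le hs hst
  have h4 : 0 < 1 / s := by positivity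
  rw [abs_le]
  constructor <;> linarith

/-- rescaling of the phase -/
theorem th_scale {ε t ξ : ℝ} (ht : 0 ≤ t) (hξ : 0 < ξ) :
    th ε (t / ξ) = ξ ^ (-ε) * th ε t - (1 - ξ ^ (-ε)) / ε := by
  unfold th
  rw [Real.div_rpow ht hξ.le, Real.rpow_neg hξ.le]
  ring

/-- The regular part: `∫_0^A e^{iμθ(s)} sinc s ds`. -/
noncomputable def Wf (ε μ A : ℝ) : ℂ := ∫ s in (0 : ℝ)..A, E (μ * th ε s) * (Real.sinc s : ℂ)

noncomputable def Si (A : ℝ) : ℝ := ∫ s in (0 : ℝ)..A, Real.sinc s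

theorem phase_deriv {ε μ t : ℝ} (hε : 0 < ε) (ht : 0 < t) :
    HasDerivAt (fun s => E (μ * th ε s)) (Complex.I * E (μ * th ε t) * (μ * t ^ (ε - 1) : ℝ)) t := by
  have h1 := (th_deriv hε ht).const_mul μ
  have h2 := (E_deriv (μ * th ε t)).scomp t h1
  refine h2.congr_deriv ?_
  rw [Complex.real_smul]
  ring

theorem tail_part {ε μ A B : ℝ} (hε : 0 < ε) (hε1 : ε ≤ 1 / 2) (hμ : 0 ≤ μ) (hμ1 : μ ≤ 1)
    (hB : 1 ≤ B) (hA : B ≤ A) :
    ‖∫ s in B..A, (E (μ * th ε s) - 1) * (Real.sinc s : ℂ)‖ ≤ 10 / Real.sqrt B := by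
  have hB0 : 0 < B := by linarith
  have e1 : ∫ s in B..A, (E (μ * th ε s) - 1) * (Real.sinc s : ℂ) =
      ∫ s in B..A, (E (μ * th ε s) - 1) * ((s⁻¹ : ℝ) : ℂ) * ((Real.sin s : ℝ) : ℂ) := by
    apply intervalIntegral.integral_congr
    intro s hs
    rw [uIcc_of_le hA] at hs
    have hs0 : s ≠ 0 := by have := hs.1; intro h; linarith
    simp only
    rw [Real.sinc_of_ne_zero hs0, div_eq_inv_mul]
    push_cast
    ring
  rw [e1]
  have hpos : ∀ s ∈ Icc B A, 0 < s := fun s hs => lt_of_lt_of_le hB0 hs.1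
  have h1 : ∀ s ∈ Icc B A, HasDerivAt (fun s => (E (μ * th ε s) - 1) * ((s⁻¹ : ℝ) : ℂ))
      (Complex.I * E (μ * th ε s) * (μ * s ^ (ε - 1) : ℝ) * ((s⁻¹ : ℝ) : ℂ) +
        (E (μ * th ε s) - 1) * ((-(s ^ 2)⁻¹ : ℝ) : ℂ)) s := by
    intro s hs
    have h2 := (phase_deriv (μ := μ) hε (hpos s hs)).sub_const 1
    have h3 := (hasDerivAt_inv (hpos s hs).ne').ofReal_comp
    exact h2.mul h3
  have h2 : ∀ s ∈ Icc B A, HasDerivAt (fun s => (((-Real.cos s : ℝ)) : ℂ)) ((Real.sin s : ℝ) : ℂ) s := by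
    intro s _
    have := ((Real.hasDerivAt_cos s).neg).ofReal_comp
    simpa using this
  have hcont : ContinuousOn (fun s : ℝ => Complex.I * E (μ * th ε s) * (μ * s ^ (ε - 1) : ℝ) *
      ((s⁻¹ : ℝ) : ℂ) + (E (μ * th ε s) - 1) * ((-(s ^ 2)⁻¹ : ℝ) : ℂ)) (uIcc B A) := by
    rw [uIcc_of_le hA]
    have c1 : ContinuousOn (fun s : ℝ => s ^ (ε - 1)) (Icc B A) :=
      ContinuousOn.rpow_const continuousOn_id (fun s hs => Or.inl (hpos s hs).ne')
    have c2 : ContinuousOn (fun s : ℝ => s⁻¹) (Icc B A) :=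
      ContinuousOn.inv₀ continuousOn_id (fun s hs => (hpos s hs).ne')
    have c3 : ContinuousOn (fun s : ℝ => (s ^ 2)⁻¹) (Icc B A) :=
      ContinuousOn.inv₀ (by fun_prop) (fun s hs => by have := hpos s hs; positivity)
    have c4 : Continuous (fun s : ℝ => E (μ * th ε s)) :=
      E_cont.comp (continuous_const.mul (th_cont hε))
    apply ContinuousOn.add
    · apply ContinuousOn.mul
      · exact (continuous_const.mul c4).continuousOn.mul
          (Complex.continuous_ofReal.comp_continuousOn (continuousOn_const.mul c1))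
      · exact Complex.continuous_ofReal.comp_continuousOn c2
    · exact (c4.sub continuous_const).continuousOn.mul
        (Complex.continuous_ofReal.comp_continuousOn c3.neg)
  have hk : IntervalIntegrable (fun s : ℝ => 3 * s ^ (-(3 / 2 : ℝ))) volume B A := by
    apply ContinuousOn.intervalIntegrable
    rw [uIcc_of_le hA]
    exact continuousOn_const.mul
      (ContinuousOn.rpow_const continuousOn_id (fun s hs => Or.inl (hpos s hs).ne'))
  have hsq : ∀ s : ℝ, 1 ≤ s → (s ^ 2)⁻¹ ≤ s ^ (-(3 / 2 : ℝ)) := by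
    intro s hs
    have h0 : 0 < s := by linarith
    rw [← Real.rpow_natCast, ← Real.rpow_neg h0.le]
    apply Real.rpow_le_rpow_of_exponent_le hs
    norm_num
  have h3 := ibp hA h1 h2 hcont.intervalIntegrable
    ((Complex.continuous_ofReal.comp Real.continuous_sin).intervalIntegrable _ _) hk ?_ (c := 1) ?_
  · refine h3.trans ?_
    have h4 : ∫ s in B..A, 3 * s ^ (-(3 / 2 : ℝ)) ≤ 6 / Real.sqrt B := by
      rw [intervalIntegral.integral_const_mul, integral_rpow (Or.inr ⟨by norm_num, ?_⟩)]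
      · have e2 : (-(3 / 2 : ℝ) + 1) = -(1 / 2) := by norm_num
        rw [e2, Real.rpow_neg (by linarith : (0 : ℝ) ≤ A), Real.rpow_neg hB0.le,
          ← Real.sqrt_eq_rpow, ← Real.sqrt_eq_rpow]
        have h5 : 0 < (Real.sqrt A)⁻¹ := inv_pos.mpr (Real.sqrt_pos.mpr (by linarith))
        have : 3 * (((Real.sqrt A)⁻¹ - (Real.sqrt B)⁻¹) / -(1 / 2)) =
            6 * (Real.sqrt B)⁻¹ - 6 * (Real.sqrt A)⁻¹ := by ring
        rw [this, div_eq_mul_inv]
        linarith
      · rw [uIcc_of_le hA]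
        intro h
        have := h.1
        linarith
    have hend : ∀ s : ℝ, B ≤ s → ‖(E (μ * th ε s) - 1) * ((s⁻¹ : ℝ) : ℂ)‖ ≤ 2 / Real.sqrt B := by
      intro s hs
      rw [norm_mul, Complex.norm_real, Real.norm_eq_abs, abs_of_pos (by
        have : 0 < s := by linarith
        positivity)]
      have h5 : s⁻¹ ≤ (Real.sqrt B)⁻¹ := by
        apply inv_anti₀ (Real.sqrt_pos.mpr hB0)
        have : Real.sqrt B ≤ B := by
          rw [Real.sqrt_le_left hB0.le]
          nlinarith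
        linarith
      calc ‖E (μ * th ε s) - 1‖ * s⁻¹ ≤ 2 * (Real.sqrt B)⁻¹ :=
            mul_le_mul (E_sub_one' _) h5 (by
              have : 0 < s := by linarith
              positivity) (by norm_num)
        _ = 2 / Real.sqrt B := by rw [div_eq_mul_inv]
    have h6 := hend A hA
    have h7 := hend B le_rfl
    have h8 : (10 : ℝ) / Real.sqrt B = 2 / Real.sqrt B + 2 / Real.sqrt B + 6 / Real.sqrt B := by
      ring
    rw [one_mul, h8]
    linarith
  · intro s hs
    have hs1 : 1 ≤ s := hB.trans hs.1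
    have hs0 : 0 < s := by linarith
    have h4 : ‖Complex.I * E (μ * th ε s) * (μ * s ^ (ε - 1) : ℝ) * ((s⁻¹ : ℝ) : ℂ)‖ ≤
        s ^ (-(3 / 2 : ℝ)) := by
      rw [norm_mul, norm_mul, norm_mul, Complex.norm_I, E_norm, Complex.norm_real,
        Complex.norm_real, Real.norm_eq_abs, Real.norm_eq_abs, one_mul, one_mul,
        abs_of_nonneg (by positivity), abs_of_nonneg (by positivity)]
      calc μ * s ^ (ε - 1) * s⁻¹ ≤ 1 * s ^ (ε - 1) * s⁻¹ := by gcongr
        _ = s ^ (ε - 2) := by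
            rw [one_mul, ← Real.rpow_neg_one, ← Real.rpow_add hs0]; congr 1; ring
        _ ≤ s ^ (-(3 / 2 : ℝ)) := Real.rpow_le_rpow_of_exponent_le hs1 (by linarith)
    have h5 : ‖(E (μ * th ε s) - 1) * ((-(s ^ 2)⁻¹ : ℝ) : ℂ)‖ ≤ 2 * s ^ (-(3 / 2 : ℝ)) := by
      rw [norm_mul, Complex.norm_real, Real.norm_eq_abs, abs_neg, abs_of_nonneg (by positivity)]
      exact mul_le_mul (E_sub_one' _) (hsq s hs1) (by positivity) (by norm_num)
    calc _ ≤ _ := norm_add_le _ _
      _ ≤ s ^ (-(3 / 2 : ℝ)) + 2 * s ^ (-(3 / 2 : ℝ)) := add_le_add h4 h5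
      _ = _ := by ring
  · intro s _
    rw [Complex.norm_real, norm_neg, Real.norm_eq_abs]
    exact Real.abs_cos_le_one s

theorem head_part {ε μ B s : ℝ} (hε : 0 < ε) (hε1 : ε ≤ 1) (hμ : 0 ≤ μ) (hs : 0 < s)
    (hsB : s ≤ B) :
    ‖∫ t in (0 : ℝ)..B, (E (μ * th ε t) - 1) * (Real.sinc t : ℂ)‖ ≤
      2 * s + μ * (B + 1 / s) * B := by
  have hc : Continuous fun t => (E (μ * th ε t) - 1) * (Real.sinc t : ℂ) :=
    ((E_cont.comp (continuous_const.mul (th_cont hε))).sub continuous_const).mul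
      (Complex.continuous_ofReal.comp Real.continuous_sinc)
  rw [← intervalIntegral.integral_add_adjacent_intervals (hc.intervalIntegrable 0 s)
    (hc.intervalIntegrable s B)]
  have h1 : ‖∫ t in (0 : ℝ)..s, (E (μ * th ε t) - 1) * (Real.sinc t : ℂ)‖ ≤ 2 * |s - 0| := by
    apply intervalIntegral.norm_integral_le_of_norm_le_const
    intro t _
    rw [norm_mul, Complex.norm_real, Real.norm_eq_abs]
    calc ‖E (μ * th ε t) - 1‖ * |Real.sinc t| ≤ 2 * 1 :=
          mul_le_mul (E_sub_one' _) (Real.abs_sinc_le_one t) (abs_nonneg _) (by norm_num)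
      _ = 2 := by norm_num
  have hC : 0 ≤ μ * (B + 1 / s) := by
    have : 0 < 1 / s := by positivity
    have : 0 ≤ B + 1 / s := by linarith
    positivity
  have h2 : ‖∫ t in s..B, (E (μ * th ε t) - 1) * (Real.sinc t : ℂ)‖ ≤
      μ * (B + 1 / s) * |B - s| := by
    apply intervalIntegral.norm_integral_le_of_norm_le_const
    intro t ht
    rw [uIoc_of_le hsB] at ht
    rw [norm_mul, Complex.norm_real, Real.norm_eq_abs]
    calc ‖E (μ * th ε t) - 1‖ * |Real.sinc t| ≤ |μ * th ε t| * 1 :=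
          mul_le_mul (E_sub_one _) (Real.abs_sinc_le_one t) (abs_nonneg _) (abs_nonneg _)
      _ = μ * |th ε t| := by rw [mul_one, abs_mul, abs_of_nonneg hμ]
      _ ≤ μ * (B + 1 / s) :=
          mul_le_mul_of_nonneg_left (th_abs hε hε1 hs ht.1.le ht.2) hμ
  rw [sub_zero, abs_of_pos hs] at h1
  rw [abs_of_nonneg (by linarith)] at h2
  refine (norm_add_le _ _).trans (add_le_add h1 (h2.trans ?_))
  exact mul_le_mul_of_nonneg_left (by linarith) hC

theorem Wf_close {ε μ A B s : ℝ} (hε : 0 < ε) (hε1 : ε ≤ 1 / 2) (hμ : 0 ≤ μ) (hμ1 : μ ≤ 1)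
    (hs : 0 < s) (hsB : s ≤ B) (hB : 1 ≤ B) (hA : B ≤ A) :
    ‖Wf ε μ A - (Si A : ℂ)‖ ≤ 2 * s + μ * (B + 1 / s) * B + 10 / Real.sqrt B := by
  have hc : Continuous fun t => (E (μ * th ε t) - 1) * (Real.sinc t : ℂ) :=
    ((E_cont.comp (continuous_const.mul (th_cont hε))).sub continuous_const).mul
      (Complex.continuous_ofReal.comp Real.continuous_sinc)
  have e1 : Wf ε μ A - (Si A : ℂ) =
      (∫ t in (0 : ℝ)..B, (E (μ * th ε t) - 1) * (Real.sinc t : ℂ)) +
        ∫ t in B..A, (E (μ * th ε t) - 1) * (Real.sinc t : ℂ) := by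
    rw [intervalIntegral.integral_add_adjacent_intervals (hc.intervalIntegrable 0 B)
      (hc.intervalIntegrable B A)]
    unfold Wf Si
    rw [← intervalIntegral.integral_ofReal, ← intervalIntegral.integral_sub]
    · apply intervalIntegral.integral_congr
      intro t _
      simp only
      ring
    · exact ((E_cont.comp (continuous_const.mul (th_cont hε))).mul
        (Complex.continuous_ofReal.comp Real.continuous_sinc)).intervalIntegrable _ _
    · exact (Complex.continuous_ofReal.comp Real.continuous_sinc).intervalIntegrable _ _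
  rw [e1]
  exact (norm_add_le _ _).trans (add_le_add (head_part hε (by linarith) hμ hs hsB)
    (tail_part hε hε1 hμ hμ1 hB hA))

theorem Si_ge {A : ℝ} (hA : Real.pi ≤ A) : 1 / 3 ≤ Si A := by
  have hpi := Real.pi_pos
  have hpi3 := Real.pi_gt_three
  unfold Si
  have hc : ∀ a b : ℝ, IntervalIntegrable Real.sinc volume a b :=
    fun a b => Real.continuous_sinc.intervalIntegrable a b
  rw [← intervalIntegral.integral_add_adjacent_intervals (hc 0 Real.pi) (hc Real.pi A),
    ← intervalIntegral.integral_add_adjacent_intervals (hc 0 (Real.pi / 2)) (hc (Real.pi / 2) Real.pi)]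
  have h1 : 1 ≤ ∫ t in (0 : ℝ)..(Real.pi / 2), Real.sinc t := by
    have e : (1 : ℝ) = ∫ _t in (0 : ℝ)..(Real.pi / 2), 2 / Real.pi := by
      rw [intervalIntegral.integral_const, smul_eq_mul]; field_simp; ring
    rw [e]
    apply intervalIntegral.integral_mono_on (by linarith) intervalIntegrable_const (hc _ _)
    intro t ht
    rcases eq_or_lt_of_le ht.1 with h0 | h0
    · rw [← h0, Real.sinc_zero, div_le_one hpi]; linarith
    · rw [Real.sinc_of_ne_zero h0.ne', le_div_iff₀ h0]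
      exact Real.mul_le_sin ht.1 ht.2
  have h2 : 0 ≤ ∫ t in (Real.pi / 2)..Real.pi, Real.sinc t := by
    apply intervalIntegral.integral_nonneg (by linarith)
    intro t ht
    have ht0 : 0 < t := by linarith [ht.1]
    rw [Real.sinc_of_ne_zero ht0.ne']
    exact div_nonneg (Real.sin_nonneg_of_nonneg_of_le_pi ht0.le ht.2) ht0.le
  have h3 : |∫ t in Real.pi..A, Real.sinc t| ≤ 2 / Real.pi := by
    have e1 : ((∫ t in Real.pi..A, Real.sinc t : ℝ) : ℂ) =
        ∫ t in Real.pi..A, ((t⁻¹ : ℝ) : ℂ) * ((Real.sin t : ℝ) : ℂ) := by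
      rw [← intervalIntegral.integral_ofReal]
      apply intervalIntegral.integral_congr
      intro s hs
      rw [uIcc_of_le hA] at hs
      have hs0 : s ≠ 0 := by have := hs.1; intro h; linarith
      simp only
      rw [Real.sinc_of_ne_zero hs0, div_eq_inv_mul]
      push_cast; ring
    rw [← Real.norm_eq_abs, ← Complex.norm_real, e1]
    have hpos : ∀ s ∈ Icc Real.pi A, 0 < s := fun s hs => lt_of_lt_of_le hpi hs.1
    have hk : ContinuousOn (fun s : ℝ => (s ^ 2)⁻¹) (uIcc Real.pi A) := by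
      rw [uIcc_of_le hA]
      exact ContinuousOn.inv₀ (by fun_prop) (fun s hs => by have := hpos s hs; positivity)
    have h4 := ibp hA (u := fun s => ((s⁻¹ : ℝ) : ℂ)) (u' := fun s => ((-(s ^ 2)⁻¹ : ℝ) : ℂ))
      (v := fun s => ((-Real.cos s : ℝ) : ℂ)) (v' := fun s => ((Real.sin s : ℝ) : ℂ))
      (k := fun s => (s ^ 2)⁻¹) (c := 1)
      (fun s hs => (hasDerivAt_inv (hpos s hs).ne').ofReal_comp)
      (fun s _ => by
        have := ((Real.hasDerivAt_cos s).neg).ofReal_comp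
        simpa using this)
      (Complex.continuous_ofReal.comp_continuousOn hk.neg).intervalIntegrable
      ((Complex.continuous_ofReal.comp Real.continuous_sin).intervalIntegrable _ _)
      hk.intervalIntegrable
      (fun s hs => by
        rw [Complex.norm_real, norm_neg, Real.norm_eq_abs, abs_of_nonneg (by positivity)])
      (fun s _ => by
        rw [Complex.norm_real, norm_neg, Real.norm_eq_abs]; exact Real.abs_cos_le_one s)
    refine h4.trans ?_
    have h5 : ∫ s in Real.pi..A, (s ^ 2)⁻¹ = Real.pi⁻¹ - A⁻¹ := by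
      have : ∀ s ∈ uIcc Real.pi A, HasDerivAt (fun s : ℝ => -s⁻¹) ((s ^ 2)⁻¹) s := by
        intro s hs
        rw [uIcc_of_le hA] at hs
        exact ((hasDerivAt_inv (hpos s hs).ne').neg).congr_deriv (by ring)
      rw [intervalIntegral.integral_eq_sub_of_hasDerivAt this hk.intervalIntegrable]
      ring
    have hA0 : 0 < A := by linarith
    rw [h5, Complex.norm_real, Complex.norm_real, Real.norm_eq_abs, Real.norm_eq_abs,
      abs_of_pos (inv_pos.mpr hA0), abs_of_pos (inv_pos.mpr hpi)]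
    apply le_of_eq
    rw [div_eq_mul_inv]; ring
  have h4 : 2 / Real.pi ≤ 2 / 3 := by
    apply div_le_div_of_nonneg_left <;> linarith
  have h5 := (abs_le.mp h3).1
  linarith

end Pool.Agent.V1191.Car
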