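import Mathlib
import Pool.Agent.V1191.Car.Osc

/-!
The truncated operator and its limit for the test function.
-/

open MeasureTheory Set Filter Topology

namespace Pool.Agent.V1191.Car

/-- truncated Carleson type integral with phase `l |x - y|^ε` -/
noncomputable def Tr (ε l : ℝ) (f : ℝ → ℂ) (x δ : ℝ) : ℂ :=
  ∫ y in {y : ℝ | δ < |x - y| ∧ |x - y| < 1 / δ},
    Complex.exp (Complex.I * (l * |x - y| ^ ε : ℝ)) / ((x - y : ℝ) : ℂ) * f y

theorem set_eq {x δ : ℝ} (hδ : 0 < δ) :
    {y : ℝ | δ < |x - y| ∧ |x - y| < 1 / δ} = Ioo (x + δ) (x + 1 / δ) ∪ Ioo (x - 1 / δ) (x - δ) := by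
  ext y
  simp only [mem_ofPred_eq, mem_union, mem_Ioo, lt_abs, abs_lt]
  constructor
  · rintro ⟨h1 | h1, h2, h3⟩
    · right; constructor <;> linarith
    · left; constructor <;> linarith
  · rintro (⟨h1, h2⟩ | ⟨h1, h2⟩)
    · exact ⟨Or.inr (by linarith), by linarith, by linarith⟩
    · exact ⟨Or.inl (by linarith), by linarith, by linarith⟩

/-- symmetrised integrand -/
noncomputable def gs (ε l : ℝ) (f : ℝ → ℂ) (x t : ℝ) : ℂ :=
  E (l * t ^ ε) * (f (x - t) - f (x + t)) * ((t⁻¹ : ℝ) : ℂ)

theorem gs_cont {ε l x a b : ℝ} {f : ℝ → ℂ} (hε : 0 < ε) (hf : Continuous f) (ha : 0 < a)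
    (hab : a ≤ b) : ContinuousOn (gs ε l f x) (uIcc a b) := by
  rw [uIcc_of_le hab]
  unfold gs
  have c2 : ContinuousOn (fun s : ℝ => s⁻¹) (Icc a b) :=
    ContinuousOn.inv₀ continuousOn_id (fun s hs => (ha.trans_le hs.1).ne')
  have c3 : Continuous (fun t : ℝ => E (l * t ^ ε) * (f (x - t) - f (x + t))) := by
    refine (E_cont.comp (continuous_const.mul (Real.continuous_rpow_const hε.le))).mul ?_
    exact (hf.comp (by fun_prop)).sub (hf.comp (by fun_prop))
  exact c3.continuousOn.mul (Complex.continuous_ofReal.comp_continuousOn c2)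

theorem Tr_eq {ε l x δ : ℝ} {f : ℝ → ℂ} (hε : 0 < ε) (hf : Continuous f)
    (hδ : 0 < δ) (hδ1 : δ < 1) : Tr ε l f x δ = ∫ t in δ..(1 / δ), gs ε l f x t := by
  have h1δ : 1 < 1 / δ := by rw [lt_div_iff₀ hδ]; linarith
  have hle : δ ≤ 1 / δ := by linarith
  unfold Tr
  rw [set_eq hδ]
  set F : ℝ → ℂ := fun y => Complex.exp (Complex.I * (l * |x - y| ^ ε : ℝ)) / ((x - y : ℝ) : ℂ) * f y
    with hF
  have hFc : ∀ s : Set ℝ, (∀ y ∈ s, y ≠ x) → ContinuousOn F s := by
    intro s hs
    rw [hF]
    refine ContinuousOn.mul (ContinuousOn.div ?_ ?_ ?_) hf.continuousOn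
    · apply Continuous.continuousOn
      have : Continuous fun y : ℝ => |x - y| ^ ε :=
        (Real.continuous_rpow_const hε.le).comp (by fun_prop)
      exact Complex.continuous_exp.comp (continuous_const.mul
        (Complex.continuous_ofReal.comp (continuous_const.mul this)))
    · apply Continuous.continuousOn; fun_prop
    · intro y hy
      rw [Complex.ofReal_ne_zero, sub_ne_zero]
      exact (hs y hy).symm
  have i1 : IntegrableOn F (Icc (x + δ) (x + 1 / δ)) :=
    (hFc _ (fun y hy => by have := hy.1; intro h; linarith)).integrableOn_compact isCompact_Icc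
  have i2 : IntegrableOn F (Icc (x - 1 / δ) (x - δ)) :=
    (hFc _ (fun y hy => by have := hy.2; intro h; linarith)).integrableOn_compact isCompact_Icc
  rw [setIntegral_union _ measurableSet_Ioo (i1.mono_set Ioo_subset_Icc_self)
    (i2.mono_set Ioo_subset_Icc_self)]
  · rw [← integral_Ioc_eq_integral_Ioo, ← integral_Ioc_eq_integral_Ioo,
      ← intervalIntegral.integral_of_le (by linarith), ← intervalIntegral.integral_of_le (by linarith),
      ← intervalIntegral.integral_comp_add_left (fun y => F y) x,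
      ← intervalIntegral.integral_comp_sub_left (fun y => F y) x,
      ← intervalIntegral.integral_add]
    · apply intervalIntegral.integral_congr
      intro t ht
      rw [uIcc_of_le hle] at ht
      have ht0 : 0 < t := lt_of_lt_of_le hδ ht.1
      have ht1 : (t : ℂ) ≠ 0 := by exact_mod_cast ht0.ne'
      simp only [hF, gs]
      have e1 : x - (x + t) = -t := by ring
      have e2 : x - (x - t) = t := by ring
      rw [e1, e2, abs_neg, abs_of_pos ht0]
      unfold E
      push_cast
      field_simp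
      ring
    · apply ContinuousOn.intervalIntegrable
      rw [uIcc_of_le hle]
      apply ((hFc {y | y ≠ x} (fun y hy => hy)).comp (by fun_prop))
      intro t ht
      have ht0 : 0 < t := lt_of_lt_of_le hδ ht.1
      simp only [mem_ofPred_eq]
      intro h; linarith
    · apply ContinuousOn.intervalIntegrable
      rw [uIcc_of_le hle]
      apply ((hFc {y | y ≠ x} (fun y hy => hy)).comp (by fun_prop))
      intro t ht
      have ht0 : 0 < t := lt_of_lt_of_le hδ ht.1
      simp only [mem_ofPred_eq]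
      intro h; linarith
  · rw [Set.disjoint_left]
    intro y hy1 hy2
    have := hy1.1
    have := hy2.2
    linarith

theorem Tr_eq' {ε l x δ : ℝ} {f : ℝ → ℂ} (hε : 0 < ε) (hf : Continuous f)
    (hx : |x| ≤ Real.pi / 2) (hf0 : ∀ y, 2 * Real.pi ≤ |y| → f y = 0)
    (hδ : 0 < δ) (hδ1 : δ < 1 / 12) : Tr ε l f x δ =
      (∫ t in δ..(Real.pi / 2), gs ε l f x t) + ∫ t in (Real.pi / 2)..(3 * Real.pi), gs ε l f x t := by
  have hpi := Real.pi_pos
  have hpi3 := Real.pi_gt_three
  have hpi4 := Real.pi_le_four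
  have h12 : 12 < 1 / δ := by rw [lt_div_iff₀ hδ]; linarith
  rw [Tr_eq hε hf hδ (by linarith)]
  rw [← intervalIntegral.integral_add_adjacent_intervals (b := 3 * Real.pi),
    ← intervalIntegral.integral_add_adjacent_intervals (a := δ) (b := Real.pi / 2)]
  · have : ∫ t in (3 * Real.pi)..(1 / δ), gs ε l f x t = 0 := by
      have e : ∫ t in (3 * Real.pi)..(1 / δ), gs ε l f x t =
          ∫ t in (3 * Real.pi)..(1 / δ), (0 : ℂ) := by
        apply intervalIntegral.integral_congr
        intro t ht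
        rw [uIcc_of_le (by linarith)] at ht
        simp only [gs]
        obtain ⟨hx1, hx2⟩ := abs_le.mp hx
        rw [hf0 (x - t), hf0 (x + t)]
        · simp
        · rw [le_abs]; left; linarith [ht.1]
        · rw [le_abs]; right; linarith [ht.1]
      rw [e, intervalIntegral.integral_zero]
    rw [this, add_zero]
  · exact (gs_cont hε hf hδ (by linarith)).intervalIntegrable
  · exact (gs_cont hε hf (by linarith) (by linarith)).intervalIntegrable
  · exact (gs_cont hε hf hδ (by linarith)).intervalIntegrable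
  · exact (gs_cont hε hf (by linarith) (by linarith)).intervalIntegrable

theorem Tr_tendsto {ε l x : ℝ} {f g : ℝ → ℂ} (hε : 0 < ε) (hf : Continuous f)
    (hx : |x| ≤ Real.pi / 2) (hf0 : ∀ y, 2 * Real.pi ≤ |y| → f y = 0) (hg : Continuous g)
    (hgf : ∀ t, 0 < t → t ≤ Real.pi / 2 → gs ε l f x t = g t) :
    Tendsto (Tr ε l f x) (𝓝[>] 0) (𝓝 ((∫ t in (0 : ℝ)..(Real.pi / 2), g t) +
      ∫ t in (Real.pi / 2)..(3 * Real.pi), gs ε l f x t)) := by
  have hpi3 := Real.pi_gt_three
  have h1 : Tendsto (fun δ => (∫ t in δ..(Real.pi / 2), g t) +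
      ∫ t in (Real.pi / 2)..(3 * Real.pi), gs ε l f x t) (𝓝[>] 0)
      (𝓝 ((∫ t in (0 : ℝ)..(Real.pi / 2), g t) +
        ∫ t in (Real.pi / 2)..(3 * Real.pi), gs ε l f x t)) := by
    apply Tendsto.add_const
    apply tendsto_nhdsWithin_of_tendsto_nhds
    have hc : Continuous fun δ => ∫ t in δ..(Real.pi / 2), g t := by
      have h2 := (intervalIntegral.continuous_primitive (μ := volume)
        (fun a b => hg.intervalIntegrable a b) (Real.pi / 2)).neg
      refine h2.congr ?_
      intro δ
      rw [intervalIntegral.integral_symm (Real.pi / 2) δ]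
      rfl
    exact hc.tendsto 0
  refine h1.congr' ?_
  have h2 : ∀ᶠ δ : ℝ in 𝓝[>] 0, δ < 1 / 12 := by
    apply eventually_nhdsWithin_of_eventually_nhds
    exact eventually_lt_nhds (by norm_num)
  filter_upwards [h2, self_mem_nhdsWithin] with δ hδ1 hδ
  rw [mem_Ioi] at hδ
  rw [Tr_eq' hε hf hx hf0 hδ hδ1]
  congr 1
  apply intervalIntegral.integral_congr
  intro t ht
  rw [uIcc_of_le (by linarith)] at ht
  exact (hgf t (lt_of_lt_of_le hδ ht.1) ht.2).symm

end Pool.Agent.V1191.Car
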