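import Mathlib
import Pool.Agent.V1191.Car.Osc
import Pool.Agent.V1191.Car.Trunc
import Pool.Agent.V1191.Car.Nest

/-!
Lower bound for the test function.
-/

open MeasureTheory Set Filter Topology

namespace Pool.Agent.V1191.Car

/-- the cut-off: one on `[-π, π]`, supported in `[-2π, 2π]` -/
noncomputable def bump : ContDiffBump (0 : ℝ) where
  rIn := Real.pi
  rOut := 2 * Real.pi
  rIn_pos := Real.pi_pos
  rIn_lt_rOut := by linarith [Real.pi_pos]

theorem bump_one {y : ℝ} (hy : |y| ≤ Real.pi) : bump y = 1 :=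
  bump.one_of_mem_closedBall (by rwa [Metric.mem_closedBall, dist_zero_right, Real.norm_eq_abs])

theorem bump_zero {y : ℝ} (hy : 2 * Real.pi ≤ |y|) : bump y = 0 :=
  bump.zero_of_le_dist (by rwa [dist_zero_right, Real.norm_eq_abs])

/-- the test function -/
noncomputable def fT (ξ : ℕ → ℕ) (J : ℕ) (y : ℝ) : ℂ :=
  (bump y : ℂ) * ∑ j ∈ Finset.range J, E (ξ j * y)

theorem fT_cont (ξ : ℕ → ℕ) (J : ℕ) : Continuous (fT ξ J) := by
  unfold fT
  refine (Complex.continuous_ofReal.comp bump.continuous).mul ?_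
  exact continuous_finsetSum _ fun j _ => E_cont.comp (by fun_prop)

theorem fT_zero (ξ : ℕ → ℕ) (J : ℕ) {y : ℝ} (hy : 2 * Real.pi ≤ |y|) : fT ξ J y = 0 := by
  unfold fT; rw [bump_zero hy]; simp

theorem E_sub_neg (a b : ℝ) : E (a - b) - E (a + b) = -2 * Complex.I * E a * (Real.sin b : ℂ) := by
  rw [sub_eq_add_neg a b, E_add, E_add]
  have : E (-b) - E b = -2 * Complex.I * (Real.sin b : ℂ) := by
    unfold E
    rw [mul_comm Complex.I, mul_comm Complex.I, Complex.exp_ofReal_mul_I, Complex.exp_ofReal_mul_I,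
      Real.cos_neg, Real.sin_neg]
    push_cast; ring
  linear_combination E a * this

/-- near part of the symmetrised integrand -/
noncomputable def gn (ε l : ℝ) (ξ : ℕ → ℕ) (J : ℕ) (x t : ℝ) : ℂ :=
  ∑ j ∈ Finset.range J, (-2 * Complex.I * E (ξ j * x)) *
    (E (l * t ^ ε) * ((ξ j * Real.sinc (ξ j * t) : ℝ) : ℂ))

theorem gn_cont {ε l x : ℝ} (hε : 0 < ε) (ξ : ℕ → ℕ) (J : ℕ) : Continuous (gn ε l ξ J x) := by
  unfold gn
  refine continuous_finsetSum _ fun j _ => continuous_const.mul ?_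
  refine (E_cont.comp (continuous_const.mul (Real.continuous_rpow_const hε.le))).mul ?_
  exact Complex.continuous_ofReal.comp (continuous_const.mul
    (Real.continuous_sinc.comp (by fun_prop)))

theorem gs_eq_gn {ε l x t : ℝ} (ξ : ℕ → ℕ) (hξ : ∀ j, 0 < ξ j) (J : ℕ) (hx : |x| ≤ Real.pi / 2)
    (ht : 0 < t) (ht1 : t ≤ Real.pi / 2) : gs ε l (fT ξ J) x t = gn ε l ξ J x t := by
  obtain ⟨hx1, hx2⟩ := abs_le.mp hx
  unfold gs gn fT
  rw [bump_one (abs_le.mpr ⟨by linarith, by linarith⟩ : |x - t| ≤ Real.pi),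
    bump_one (abs_le.mpr ⟨by linarith, by linarith⟩ : |x + t| ≤ Real.pi)]
  rw [Complex.ofReal_one, one_mul, one_mul, ← Finset.sum_sub_distrib, Finset.mul_sum,
    Finset.sum_mul]
  apply Finset.sum_congr rfl
  intro j _
  have hj : (0 : ℝ) < ξ j := by exact_mod_cast hξ j
  rw [mul_sub (ξ j : ℝ) x t, mul_add (ξ j : ℝ) x t, E_sub_neg,
    Real.sinc_of_ne_zero (by positivity)]
  have h1 : (t : ℂ) ≠ 0 := by exact_mod_cast ht.ne'
  have h2 : ((ξ j : ℝ) : ℂ) ≠ 0 := by exact_mod_cast hj.ne'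
  push_cast at h2 ⊢
  field_simp

theorem scale {ε μ ξ : ℝ} (hε : 0 < ε) (hξ : 0 < ξ) :
    ∫ t in (0 : ℝ)..(Real.pi / 2), E (μ / ε * t ^ ε) * ((ξ * Real.sinc (ξ * t) : ℝ) : ℂ) =
      E (μ / ε) * E (-(μ * ((1 - ξ ^ (-ε)) / ε))) * Wf ε (μ * ξ ^ (-ε)) (ξ * (Real.pi / 2)) := by
  have hpi := Real.pi_pos
  unfold Wf
  have h0 : (0 : ℝ) = ξ * 0 := by ring
  conv_rhs => rw [h0]
  rw [← intervalIntegral.smul_integral_comp_mul_left
    (fun s => E (μ * ξ ^ (-ε) * th ε s) * (Real.sinc s : ℂ)), Complex.real_smul,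
    ← intervalIntegral.integral_const_mul, ← intervalIntegral.integral_const_mul]
  apply intervalIntegral.integral_congr
  intro t ht
  rw [uIcc_of_le (by linarith)] at ht
  simp only
  have e1 : th ε t = ξ ^ (-ε) * th ε (ξ * t) - (1 - ξ ^ (-ε)) / ε := by
    have := th_scale (ε := ε) (t := ξ * t) (ξ := ξ) (mul_nonneg hξ.le ht.1) hξ
    rwa [mul_div_cancel_left₀ _ hξ.ne'] at this
  have e2 : μ / ε * t ^ ε = μ / ε + (-(μ * ((1 - ξ ^ (-ε)) / ε))) + μ * ξ ^ (-ε) * th ε (ξ * t) := by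
    have e3 : μ / ε * t ^ ε = μ / ε + μ * th ε t := by
      unfold th; field_simp; ring
    rw [e3, e1]; ring
  rw [e2, E_add, E_add]
  push_cast
  ring

/-- main term -/
theorem main_part {ε μ x : ℝ} (hε : 0 < ε) (ξ : ℕ → ℕ) (hξ : ∀ j, 0 < ξ j) (J : ℕ) :
    ∫ t in (0 : ℝ)..(Real.pi / 2), gn ε (μ / ε) ξ J x t =
      -2 * Complex.I * E (μ / ε) * ∑ j ∈ Finset.range J,
        E (ξ j * x - μ * ((1 - (ξ j : ℝ) ^ (-ε)) / ε)) *
          Wf ε (μ * (ξ j : ℝ) ^ (-ε)) (ξ j * (Real.pi / 2)) := by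
  unfold gn
  rw [intervalIntegral.integral_finsetSum]
  · rw [Finset.mul_sum]
    apply Finset.sum_congr rfl
    intro j _
    rw [intervalIntegral.integral_const_mul, scale hε (by exact_mod_cast hξ j),
      sub_eq_add_neg (ξ j * x : ℝ), E_add]
    ring
  · intro j _
    apply Continuous.intervalIntegrable
    refine continuous_const.mul ?_
    refine (E_cont.comp (continuous_const.mul (Real.continuous_rpow_const hε.le))).mul ?_
    exact Complex.continuous_ofReal.comp (continuous_const.mul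
      (Real.continuous_sinc.comp (by fun_prop)))

theorem sum_lower {J : ℕ} (a S : ℕ → ℝ) (W : ℕ → ℂ) (hS : ∀ j < J, 1 / 3 ≤ S j)
    (hW : ∀ j < J, ‖W j - (S j : ℂ)‖ ≤ 1 / 12) (ha : ∀ j < J, 1 / 2 ≤ Real.cos (a j)) :
    (J : ℝ) / 12 ≤ ‖∑ j ∈ Finset.range J, E (a j) * W j‖ := by
  have h1 : (J : ℝ) / 12 = ∑ _j ∈ Finset.range J, (1 / 12 : ℝ) := by
    rw [Finset.sum_const, Finset.card_range, nsmul_eq_mul]; ring
  rw [h1]
  refine le_trans ?_ (Complex.re_le_norm _)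
  rw [Complex.re_sum]
  apply Finset.sum_le_sum
  intro j hj
  rw [Finset.mem_range] at hj
  have h2 : E (a j) * W j = E (a j) * (S j : ℂ) + E (a j) * (W j - (S j : ℂ)) := by ring
  rw [h2, Complex.add_re]
  have h3 : (E (a j) * (S j : ℂ)).re = Real.cos (a j) * S j := by
    rw [Complex.re_mul_ofReal, E_re]
  have h4 : -(1 / 12) ≤ (E (a j) * (W j - (S j : ℂ))).re := by
    have h5 := Complex.abs_re_le_norm (E (a j) * (W j - (S j : ℂ)))
    rw [norm_mul, E_norm, one_mul] at h5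
    have := (abs_le.mp (h5.trans (hW j hj))).1
    linarith
  have h5 : 1 / 6 ≤ Real.cos (a j) * S j := by
    calc (1 : ℝ) / 6 = (1 / 2) * (1 / 3) := by norm_num
      _ ≤ _ := mul_le_mul (ha j hj) (hS j hj) (by norm_num) (by linarith [ha j hj])
  rw [h3]
  linarith

end Pool.Agent.V1191.Car
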