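import Mathlib
import Pool.Agent.V1191.Car.Est

/-!
The far part of the test integral.
-/

open MeasureTheory Set Filter Topology

namespace Pool.Agent.V1191.Car

theorem bump_deriv_bdd : ∃ C : ℝ, ∀ y, ‖deriv (bump : ℝ → ℝ) y‖ ≤ C := by
  have h1 : HasCompactSupport (deriv (bump : ℝ → ℝ)) := bump.hasCompactSupport.deriv
  have h2 : Continuous (deriv (bump : ℝ → ℝ)) :=
    (bump.contDiff (n := 1)).continuous_deriv le_rfl
  exact h2.bounded_above_of_compact_support h1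

noncomputable def CG : ℝ := Classical.choose bump_deriv_bdd

theorem CG_spec (y : ℝ) : ‖deriv (bump : ℝ → ℝ) y‖ ≤ CG := Classical.choose_spec bump_deriv_bdd y

theorem CG_nonneg : 0 ≤ CG := (norm_nonneg _).trans (CG_spec 0)

theorem bump_abs (y : ℝ) : |bump y| ≤ 1 := by
  rw [abs_of_nonneg bump.nonneg]; exact bump.le_one

/-- one oscillating term, `σ = ±1` -/
theorem term {ε μ x σ : ℝ} {ξ : ℝ} (hε : 0 < ε) (hε1 : ε ≤ 1) (hμ : 0 ≤ μ) (hμ1 : μ ≤ 1)
    (hξ : 0 < ξ) (hσ : |σ| = 1) :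
    ‖∫ t in (Real.pi / 2)..(3 * Real.pi),
      (E (μ / ε * t ^ ε) * ((t⁻¹ : ℝ) : ℂ) * ((bump (x + σ * t) : ℝ) : ℂ)) *
        E (ξ * (x + σ * t))‖ ≤ (1 / ξ) * (2 + 10 * (2 + CG)) := by
  have hpi := Real.pi_pos
  have hpi3 := Real.pi_gt_three
  have hpi4 := Real.pi_le_four
  have hσ0 : σ ≠ 0 := by intro h; rw [h] at hσ; simp at hσ
  have hab : Real.pi / 2 ≤ 3 * Real.pi := by linarith
  have hpos : ∀ t ∈ Icc (Real.pi / 2) (3 * Real.pi), 1 ≤ t := fun t ht => by linarith [ht.1]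
  have hE : ∀ t, 0 < t → HasDerivAt (fun t => E (μ / ε * t ^ ε))
      (Complex.I * E (μ / ε * t ^ ε) * (μ * t ^ (ε - 1) : ℝ)) t := by
    intro t ht
    have h1 := (Real.hasDerivAt_rpow_const (x := t) (p := ε) (Or.inl ht.ne')).const_mul (μ / ε)
    have h2 := (E_deriv (μ / ε * t ^ ε)).scomp t h1
    refine h2.congr_deriv ?_
    rw [Complex.real_smul]
    have : (ε : ℂ) ≠ 0 := by exact_mod_cast hε.ne'
    push_cast
    field_simp
  have hu : ∀ t ∈ Icc (Real.pi / 2) (3 * Real.pi), HasDerivAt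
      (fun t => E (μ / ε * t ^ ε) * ((t⁻¹ : ℝ) : ℂ) * ((bump (x + σ * t) : ℝ) : ℂ))
      ((Complex.I * E (μ / ε * t ^ ε) * (μ * t ^ (ε - 1) : ℝ) * ((t⁻¹ : ℝ) : ℂ) +
        E (μ / ε * t ^ ε) * ((-(t ^ 2)⁻¹ : ℝ) : ℂ)) * ((bump (x + σ * t) : ℝ) : ℂ) +
        E (μ / ε * t ^ ε) * ((t⁻¹ : ℝ) : ℂ) * ((deriv (bump : ℝ → ℝ) (x + σ * t) * σ : ℝ) : ℂ)) t := by
    intro t ht
    have ht0 : 0 < t := lt_of_lt_of_le one_pos (hpos t ht)
    refine ((hE t ht0).mul (hasDerivAt_inv ht0.ne').ofReal_comp).mul ?_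
    apply HasDerivAt.ofReal_comp
    have h1 : HasDerivAt (bump : ℝ → ℝ) (deriv (bump : ℝ → ℝ) (x + σ * t)) (x + σ * t) :=
      ((bump.contDiff (n := 1)).differentiable one_ne_zero).differentiableAt.hasDerivAt
    have h2 : HasDerivAt (fun t => x + σ * t) σ t := by
      simpa using ((hasDerivAt_id t).const_mul σ).const_add x
    exact HasDerivAt.comp (h₂ := (bump : ℝ → ℝ)) (h := fun t => x + σ * t) t h1 h2
  have hv : ∀ t ∈ Icc (Real.pi / 2) (3 * Real.pi), HasDerivAt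
      (fun t => E (ξ * (x + σ * t)) * (-Complex.I * ((1 / (ξ * σ) : ℝ) : ℂ)))
      (E (ξ * (x + σ * t))) t := by
    intro t _
    have h2 : HasDerivAt (fun t => ξ * (x + σ * t)) (ξ * σ) t := by
      simpa using (((hasDerivAt_id t).const_mul σ).const_add x).const_mul ξ
    have h3 := ((E_deriv (ξ * (x + σ * t))).scomp t h2).mul_const
      (-Complex.I * ((1 / (ξ * σ) : ℝ) : ℂ))
    refine h3.congr_deriv ?_
    rw [Complex.real_smul]
    have h4 : (ξ : ℂ) ≠ 0 := by exact_mod_cast hξ.ne'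
    have h5 : (σ : ℂ) ≠ 0 := by exact_mod_cast hσ0
    push_cast
    field_simp
    rw [Complex.I_sq]; ring
  have cE : Continuous fun t : ℝ => E (μ / ε * t ^ ε) :=
    E_cont.comp (continuous_const.mul (Real.continuous_rpow_const hε.le))
  have c1 : ContinuousOn (fun s : ℝ => s ^ (ε - 1)) (Icc (Real.pi / 2) (3 * Real.pi)) :=
    ContinuousOn.rpow_const continuousOn_id (fun s hs => Or.inl (by
      have := hpos s hs; positivity))
  have c2 : ContinuousOn (fun s : ℝ => s⁻¹) (Icc (Real.pi / 2) (3 * Real.pi)) :=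
    ContinuousOn.inv₀ continuousOn_id (fun s hs => by have := hpos s hs; positivity)
  have c3 : ContinuousOn (fun s : ℝ => (s ^ 2)⁻¹) (Icc (Real.pi / 2) (3 * Real.pi)) :=
    ContinuousOn.inv₀ (by fun_prop) (fun s hs => by have := hpos s hs; positivity)
  have c4 : Continuous fun t : ℝ => bump (x + σ * t) := bump.continuous.comp (by fun_prop)
  have c5 : Continuous fun t : ℝ => deriv (bump : ℝ → ℝ) (x + σ * t) :=
    ((bump.contDiff (n := 1)).continuous_deriv le_rfl).comp (by fun_prop)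
  have hu' : IntervalIntegrable (fun t =>
      ((Complex.I * E (μ / ε * t ^ ε) * (μ * t ^ (ε - 1) : ℝ) * ((t⁻¹ : ℝ) : ℂ) +
        E (μ / ε * t ^ ε) * ((-(t ^ 2)⁻¹ : ℝ) : ℂ)) * ((bump (x + σ * t) : ℝ) : ℂ) +
        E (μ / ε * t ^ ε) * ((t⁻¹ : ℝ) : ℂ) * ((deriv (bump : ℝ → ℝ) (x + σ * t) * σ : ℝ) : ℂ)))
      volume (Real.pi / 2) (3 * Real.pi) := by
    apply ContinuousOn.intervalIntegrable
    rw [uIcc_of_le hab]
    have o := Complex.continuous_ofReal
    refine ContinuousOn.add (ContinuousOn.mul (ContinuousOn.add ?_ ?_) ?_) ?_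
    · exact ((continuous_const.mul cE).continuousOn.mul
        (o.comp_continuousOn (continuousOn_const.mul c1))).mul (o.comp_continuousOn c2)
    · exact cE.continuousOn.mul (o.comp_continuousOn c3.neg)
    · exact (o.comp c4).continuousOn
    · exact (cE.continuousOn.mul (o.comp_continuousOn c2)).mul
        (o.comp (c5.mul continuous_const)).continuousOn
  have hv' : IntervalIntegrable (fun t => E (ξ * (x + σ * t))) volume (Real.pi / 2) (3 * Real.pi) :=
    (E_cont.comp (by fun_prop)).intervalIntegrable _ _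
  have hinv : ∀ t : ℝ, 1 ≤ t → |t⁻¹| ≤ 1 := by
    intro t ht
    rw [abs_of_nonneg (by positivity)]
    exact inv_le_one_of_one_le₀ ht
  have h := ibp hab hu hv hu' hv' (k := fun _ => 2 + CG) (c := 1 / ξ) intervalIntegrable_const
    ?_ ?_
  · refine h.trans ?_
    apply mul_le_mul_of_nonneg_left _ (by positivity)
    have hend : ∀ t : ℝ, 1 ≤ t →
        ‖E (μ / ε * t ^ ε) * ((t⁻¹ : ℝ) : ℂ) * ((bump (x + σ * t) : ℝ) : ℂ)‖ ≤ 1 := by
      intro t ht
      rw [norm_mul, norm_mul, E_norm, Complex.norm_real, Complex.norm_real, Real.norm_eq_abs,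
        Real.norm_eq_abs, one_mul]
      exact mul_le_one₀ (hinv t ht) (abs_nonneg _) (bump_abs _)
    have h1 := hend (Real.pi / 2) (by linarith)
    have h2 := hend (3 * Real.pi) (by linarith)
    rw [intervalIntegral.integral_const, smul_eq_mul]
    have h3 : (3 * Real.pi - Real.pi / 2) * (2 + CG) ≤ 10 * (2 + CG) :=
      mul_le_mul_of_nonneg_right (by linarith) (by linarith [CG_nonneg])
    linarith
  · intro t ht
    have ht1 := hpos t ht
    have ht0 : 0 < t := lt_of_lt_of_le one_pos ht1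
    have g1 : ‖Complex.I * E (μ / ε * t ^ ε) * (μ * t ^ (ε - 1) : ℝ) * ((t⁻¹ : ℝ) : ℂ)‖ ≤ 1 := by
      rw [norm_mul, norm_mul, norm_mul, Complex.norm_I, E_norm, Complex.norm_real,
        Complex.norm_real, Real.norm_eq_abs, Real.norm_eq_abs, one_mul, one_mul,
        abs_of_nonneg (a := μ * t ^ (ε - 1)) (by positivity)]
      refine mul_le_one₀ ?_ (abs_nonneg _) (hinv t ht1)
      exact mul_le_one₀ hμ1 (by positivity) (Real.rpow_le_one_of_one_le_of_nonpos ht1 (by linarith))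
    have g2 : ‖E (μ / ε * t ^ ε) * ((-(t ^ 2)⁻¹ : ℝ) : ℂ)‖ ≤ 1 := by
      rw [norm_mul, E_norm, Complex.norm_real, Real.norm_eq_abs, one_mul, abs_neg,
        abs_of_nonneg (by positivity)]
      exact inv_le_one_of_one_le₀ (one_le_pow₀ ht1)
    have g3 : ‖E (μ / ε * t ^ ε) * ((t⁻¹ : ℝ) : ℂ) *
        ((deriv (bump : ℝ → ℝ) (x + σ * t) * σ : ℝ) : ℂ)‖ ≤ CG := by
      rw [norm_mul, norm_mul, E_norm, Complex.norm_real, Complex.norm_real, Real.norm_eq_abs,
        Real.norm_eq_abs, one_mul, abs_mul, hσ, mul_one]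
      calc |t⁻¹| * |deriv (bump : ℝ → ℝ) (x + σ * t)| ≤ 1 * CG :=
            mul_le_mul (hinv t ht1) (CG_spec _) (abs_nonneg _) (by norm_num)
        _ = CG := one_mul _
    refine (norm_add_le _ _).trans ?_
    rw [norm_mul, Complex.norm_real (bump (x + σ * t)), Real.norm_eq_abs]
    have g4 := (norm_add_le (Complex.I * E (μ / ε * t ^ ε) * (μ * t ^ (ε - 1) : ℝ) *
      ((t⁻¹ : ℝ) : ℂ)) (E (μ / ε * t ^ ε) * ((-(t ^ 2)⁻¹ : ℝ) : ℂ)))
    have g5 := mul_le_mul (g4.trans (add_le_add g1 g2)) (bump_abs (x + σ * t)) (abs_nonneg _)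
      (by norm_num)
    linarith
  · intro t _
    rw [norm_mul, norm_mul, E_norm, norm_neg, Complex.norm_I, Complex.norm_real, Real.norm_eq_abs,
      abs_div, abs_one, abs_mul, hσ, abs_of_pos hξ]
    simp

/-- the far part -/
theorem far {ε μ x : ℝ} (hε : 0 < ε) (hε1 : ε ≤ 1) (hμ : 0 ≤ μ) (hμ1 : μ ≤ 1)
    (ξ : ℕ → ℕ) (J : ℕ) {N : ℝ} (hN : 0 < N) (hξ : ∀ j < J, N ≤ ξ j) :
    ‖∫ t in (Real.pi / 2)..(3 * Real.pi), gs ε (μ / ε) (fT ξ J) x t‖ ≤
      J * ((2 / N) * (2 + 10 * (2 + CG))) := by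
  have hpi := Real.pi_pos
  have cE : Continuous fun t : ℝ => E (μ / ε * t ^ ε) :=
    E_cont.comp (continuous_const.mul (Real.continuous_rpow_const hε.le))
  have c2 : ContinuousOn (fun s : ℝ => s⁻¹) (Icc (Real.pi / 2) (3 * Real.pi)) :=
    ContinuousOn.inv₀ continuousOn_id (fun s hs => by
      have := hs.1; intro h; linarith)
  have hint : ∀ (σ : ℝ) (j : ℕ), IntervalIntegrable (fun t =>
      (E (μ / ε * t ^ ε) * ((t⁻¹ : ℝ) : ℂ) * ((bump (x + σ * t) : ℝ) : ℂ)) *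
        E (ξ j * (x + σ * t))) volume (Real.pi / 2) (3 * Real.pi) := by
    intro σ j
    apply ContinuousOn.intervalIntegrable
    rw [uIcc_of_le (by linarith)]
    have c4 : Continuous fun t : ℝ => bump (x + σ * t) := bump.continuous.comp (by fun_prop)
    refine ((cE.continuousOn.mul (Complex.continuous_ofReal.comp_continuousOn c2)).mul
      (Complex.continuous_ofReal.comp c4).continuousOn).mul ?_
    exact (E_cont.comp (by fun_prop)).continuousOn
  have e : ∫ t in (Real.pi / 2)..(3 * Real.pi), gs ε (μ / ε) (fT ξ J) x t =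
      ∑ j ∈ Finset.range J, ((∫ t in (Real.pi / 2)..(3 * Real.pi),
      (E (μ / ε * t ^ ε) * ((t⁻¹ : ℝ) : ℂ) * ((bump (x + (-1) * t) : ℝ) : ℂ)) *
        E (ξ j * (x + (-1) * t))) - ∫ t in (Real.pi / 2)..(3 * Real.pi),
      (E (μ / ε * t ^ ε) * ((t⁻¹ : ℝ) : ℂ) * ((bump (x + 1 * t) : ℝ) : ℂ)) *
        E (ξ j * (x + 1 * t))) := by
    simp_rw [← intervalIntegral.integral_sub (hint _ _) (hint _ _)]
    rw [← intervalIntegral.integral_finsetSum (fun j _ => (hint _ _).sub (hint _ _))]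
    apply intervalIntegral.integral_congr
    intro t _
    simp only [gs, fT]
    rw [Finset.sum_sub_distrib, ← Finset.mul_sum, ← Finset.mul_sum]
    have e1 : x + (-1) * t = x - t := by ring
    have e2 : x + 1 * t = x + t := by ring
    rw [e1, e2]
    ring
  rw [e]
  have h1 : ∀ j ∈ Finset.range J, ‖(∫ t in (Real.pi / 2)..(3 * Real.pi),
      (E (μ / ε * t ^ ε) * ((t⁻¹ : ℝ) : ℂ) * ((bump (x + (-1) * t) : ℝ) : ℂ)) *
        E (ξ j * (x + (-1) * t))) - ∫ t in (Real.pi / 2)..(3 * Real.pi),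
      (E (μ / ε * t ^ ε) * ((t⁻¹ : ℝ) : ℂ) * ((bump (x + 1 * t) : ℝ) : ℂ)) *
        E (ξ j * (x + 1 * t))‖ ≤ (2 / N) * (2 + 10 * (2 + CG)) := by
    intro j hj
    rw [Finset.mem_range] at hj
    have hξj : 0 < (ξ j : ℝ) := hN.trans_le (hξ j hj)
    have t1 := term (x := x) (σ := -1) hε hε1 hμ hμ1 hξj (by norm_num)
    have t2 := term (x := x) (σ := 1) hε hε1 hμ hμ1 hξj (by norm_num)
    have t3 : 1 / (ξ j : ℝ) * (2 + 10 * (2 + CG)) ≤ 1 / N * (2 + 10 * (2 + CG)) := by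
      apply mul_le_mul_of_nonneg_right _ (by linarith [CG_nonneg])
      exact one_div_le_one_div_of_le hN (hξ j hj)
    calc _ ≤ _ := norm_sub_le _ _
      _ ≤ 1 / (ξ j : ℝ) * (2 + 10 * (2 + CG)) + 1 / (ξ j : ℝ) * (2 + 10 * (2 + CG)) :=
          add_le_add t1 t2
      _ ≤ 1 / N * (2 + 10 * (2 + CG)) + 1 / N * (2 + 10 * (2 + CG)) := add_le_add t3 t3
      _ = _ := by ring
  refine (norm_sum_le_of_le _ h1).trans ?_
  rw [Finset.sum_const, Finset.card_range, nsmul_eq_mul]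

end Pool.Agent.V1191.Car
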