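import Mathlib
import Pool.Agent.V1191.Car.Tail

/-!
Norm of the test function and the final lower bound.
-/

open MeasureTheory Set Filter Topology

namespace Pool.Agent.V1191.Car

theorem int_E (n : ℤ) : ∫ y in (-(2 * Real.pi))..(2 * Real.pi), E (n * y) =
    if n = 0 then ((4 * Real.pi : ℝ) : ℂ) else 0 := by
  split_ifs with hn
  · subst hn
    have : ∀ y : ℝ, E (((0 : ℤ) : ℝ) * y) = 1 := by intro y; unfold E; simp
    simp_rw [this]
    rw [intervalIntegral.integral_const]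
    rw [Complex.real_smul, mul_one]
    congr 1; ring
  · have hc : Complex.I * (n : ℂ) ≠ 0 := mul_ne_zero Complex.I_ne_zero (by exact_mod_cast hn)
    have e : ∀ y : ℝ, E (n * y) = Complex.exp ((Complex.I * (n : ℂ)) * y) := by
      intro y; unfold E; congr 1; push_cast; ring
    simp_rw [e]
    rw [integral_exp_mul_complex hc]
    have h1 : Complex.exp (Complex.I * (n : ℂ) * ((2 * Real.pi : ℝ) : ℂ)) = 1 := by
      have := Complex.exp_int_mul_two_pi_mul_I n
      rw [← this]; congr 1; push_cast; ring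
    have h2 : Complex.exp (Complex.I * (n : ℂ) * ((-(2 * Real.pi) : ℝ) : ℂ)) = 1 := by
      have := Complex.exp_int_mul_two_pi_mul_I (-n)
      rw [← this]; congr 1; push_cast; ring
    rw [h1, h2]; simp

theorem norm_sq_sum (ξ : ℕ → ℕ) (J : ℕ) (y : ℝ) :
    ((‖∑ j ∈ Finset.range J, E (ξ j * y)‖ ^ 2 : ℝ) : ℂ) =
      ∑ j ∈ Finset.range J, ∑ k ∈ Finset.range J, E (((ξ j : ℤ) - (ξ k : ℤ) : ℤ) * y) := by
  have h1 : ∀ t : ℝ, (starRingEnd ℂ) (E t) = E (-t) := by
    intro t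
    unfold E
    rw [← Complex.exp_conj]
    congr 1
    simp
  rw [Complex.ofReal_pow, ← Complex.mul_conj', map_sum, Finset.sum_mul_sum]
  apply Finset.sum_congr rfl
  intro j _
  apply Finset.sum_congr rfl
  intro k _
  rw [h1, ← E_add]
  congr 1
  push_cast; ring

theorem int_norm_sq {ξ : ℕ → ℕ} (hξ : Function.Injective ξ) (J : ℕ) :
    ∫ y in (-(2 * Real.pi))..(2 * Real.pi), ‖∑ j ∈ Finset.range J, E (ξ j * y)‖ ^ 2 =
      4 * Real.pi * J := by
  have h : ((∫ y in (-(2 * Real.pi))..(2 * Real.pi),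
      ‖∑ j ∈ Finset.range J, E (ξ j * y)‖ ^ 2 : ℝ) : ℂ) = ((4 * Real.pi * J : ℝ) : ℂ) := by
    rw [← intervalIntegral.integral_ofReal]
    simp_rw [norm_sq_sum]
    rw [intervalIntegral.integral_finsetSum]
    · have : ∀ j ∈ Finset.range J, ∫ y in (-(2 * Real.pi))..(2 * Real.pi),
          ∑ k ∈ Finset.range J, E (((ξ j : ℤ) - (ξ k : ℤ) : ℤ) * y) = ((4 * Real.pi : ℝ) : ℂ) := by
        intro j hj
        rw [intervalIntegral.integral_finsetSum]
        · simp_rw [int_E]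
          rw [Finset.sum_eq_single j]
          · simp
          · intro k _ hk
            rw [if_neg]
            intro h
            apply hk
            apply hξ
            omega
          · intro h; exact absurd hj h
        · intro k _
          exact (E_cont.comp (by fun_prop)).intervalIntegrable _ _
      rw [Finset.sum_congr rfl this, Finset.sum_const, Finset.card_range, nsmul_eq_mul]
      push_cast; ring
    · intro j _
      apply Continuous.intervalIntegrable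
      exact continuous_finsetSum _ fun k _ => E_cont.comp (by fun_prop)
  exact_mod_cast h

theorem fT_norm {ξ : ℕ → ℕ} (hξ : Function.Injective ξ) (J : ℕ) :
    ∫⁻ y, ‖fT ξ J y‖ₑ ^ 2 ≤ ENNReal.ofReal (4 * Real.pi * J) := by
  have hpi := Real.pi_pos
  have hPc : Continuous fun y : ℝ => ‖∑ j ∈ Finset.range J, E (ξ j * y)‖ ^ 2 :=
    (continuous_finsetSum _ fun k _ => E_cont.comp (by fun_prop)).norm.pow 2
  calc ∫⁻ y, ‖fT ξ J y‖ₑ ^ 2 ≤ ∫⁻ y, (Icc (-(2 * Real.pi)) (2 * Real.pi)).indicator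
        (fun y => ENNReal.ofReal (‖∑ j ∈ Finset.range J, E (ξ j * y)‖ ^ 2)) y := by
        apply lintegral_mono
        intro y
        change ‖fT ξ J y‖ₑ ^ 2 ≤ _
        by_cases hy : y ∈ Icc (-(2 * Real.pi)) (2 * Real.pi)
        · rw [indicator_of_mem hy]
          rw [← ofReal_norm, ← ENNReal.ofReal_pow (norm_nonneg _)]
          apply ENNReal.ofReal_le_ofReal
          apply pow_le_pow_left₀ (norm_nonneg _)
          unfold fT
          rw [norm_mul, Complex.norm_real, Real.norm_eq_abs]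
          exact mul_le_of_le_one_left (norm_nonneg _) (bump_abs y)
        · rw [indicator_of_notMem hy]
          have : 2 * Real.pi ≤ |y| := by
            by_contra h
            push Not at h
            exact hy ⟨(abs_lt.mp h).1.le, (abs_lt.mp h).2.le⟩
          rw [fT_zero _ _ this]; simp
    _ = ∫⁻ y in Icc (-(2 * Real.pi)) (2 * Real.pi),
        ENNReal.ofReal (‖∑ j ∈ Finset.range J, E (ξ j * y)‖ ^ 2) :=
        lintegral_indicator measurableSet_Icc _
    _ = ENNReal.ofReal (∫ y in Icc (-(2 * Real.pi)) (2 * Real.pi),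
        ‖∑ j ∈ Finset.range J, E (ξ j * y)‖ ^ 2) := by
        rw [ofReal_integral_eq_lintegral_ofReal]
        · exact (hPc.continuousOn.integrableOn_compact isCompact_Icc)
        · exact Eventually.of_forall fun y => by positivity
    _ = ENNReal.ofReal (4 * Real.pi * J) := by
        rw [integral_Icc_eq_integral_Ioc, ← intervalIntegral.integral_of_le (by linarith),
          int_norm_sq hξ]

theorem Wbound {ε μ A : ℝ} (hε : 0 < ε) (hε1 : ε ≤ 1 / 2) (hμ : 0 ≤ μ) (hμ1 : μ ≤ 1 / 10 ^ 12)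
    (hA : 160000 ≤ A) : ‖Wf ε μ A - (Si A : ℂ)‖ ≤ 1 / 12 := by
  have h := Wf_close (s := 1 / 200) (B := 160000) hε hε1 hμ (hμ1.trans (by norm_num))
    (by norm_num) (by norm_num) (by norm_num) hA
  have h2 : Real.sqrt 160000 = 400 := by
    rw [show (160000 : ℝ) = 400 ^ 2 by norm_num]
    exact Real.sqrt_sq (by norm_num)
  rw [h2] at h
  refine h.trans ?_
  have : μ * (160000 + 1 / (1 / 200)) * 160000 ≤ (1 / 10 ^ 12) * (160000 + 1 / (1 / 200)) * 160000 := by
    gcongr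
  norm_num at this ⊢
  linarith

/-- lower bound for the phase increments -/
theorem L_bounds {ε y : ℝ} (hε : 0 < ε) (hy : 0 ≤ y) (h : ε * y ≤ 1 / 5) :
    4 / 5 * y ≤ (1 - Real.exp (-(ε * y))) / ε ∧ (1 - Real.exp (-(ε * y))) / ε ≤ y := by
  have h0 : 0 ≤ ε * y := by positivity
  constructor
  · rw [le_div_iff₀ hε]
    have h1 := Real.abs_exp_sub_one_sub_id_le (x := -(ε * y)) (by rw [abs_neg, abs_of_nonneg h0]; linarith)
    have h2 := (abs_le.mp h1).2
    nlinarith
  · rw [div_le_iff₀ hε]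
    have := Real.add_one_le_exp (-(ε * y))
    linarith

/-- the key lower bound -/
theorem key {ε : ℝ} (hε : 0 < ε) (hε1 : ε ≤ 1 / 2) {ξ : ℕ → ℕ} {J : ℕ} (hJ : 0 < J)
    {y : ℕ → ℝ} (hy : ∀ j, (ξ j : ℝ) = Real.exp (y j)) (hy1 : ∀ j, y (j + 1) = 5 * y j)
    (hy0 : 0 ≤ y 0) (hy0' : 8 * Real.pi / 3 ≤ 1 / 10 ^ 12 * (4 / 5 * y 0))
    {N : ℝ} (hN : 160000 ≤ N) (hN' : (2 / N) * (2 + 10 * (2 + CG)) ≤ 1 / 12)
    (hξN : ∀ j, N ≤ ξ j) (hεy : ∀ j < J, ε * y j ≤ 1 / 5) {x : ℝ} (hx : |x| ≤ Real.pi / 2) :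
    ∃ (l : ℝ) (w : ℂ), Tendsto (Tr ε l (fT ξ J) x) (𝓝[>] 0) (𝓝 w) ∧ (J : ℝ) / 12 ≤ ‖w‖ := by
  have hpi := Real.pi_pos
  have hpi3 := Real.pi_gt_three
  have hypos : ∀ j, 0 ≤ y j := by
    intro j
    induction j with
    | zero => exact hy0
    | succ j ih => rw [hy1]; linarith
  have hL : ∀ j < J, 4 / 5 * y j ≤ (1 - (ξ j : ℝ) ^ (-ε)) / ε ∧ (1 - (ξ j : ℝ) ^ (-ε)) / ε ≤ y j := by
    intro j hj
    have e : (ξ j : ℝ) ^ (-ε) = Real.exp (-(ε * y j)) := by
      rw [hy j, ← Real.exp_mul]; congr 1; ring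
    rw [e]
    exact L_bounds hε (hypos j) (hεy j hj)
  have hy00 : 0 < y 0 := by
    by_contra h
    push Not at h
    have : y 0 = 0 := le_antisymm h hy0
    rw [this] at hy0'
    norm_num at hy0'
    linarith
  have hypos' : ∀ j, 0 < y j := by
    intro j
    induction j with
    | zero => exact hy00
    | succ j ih => rw [hy1]; linarith
  obtain ⟨μ, ⟨hμ0, hμ1⟩, hcos⟩ := nest J (fun j => (ξ j : ℝ) * x)
    (fun j => (1 - (ξ j : ℝ) ^ (-ε)) / ε) 0 (1 / 10 ^ 12) (by norm_num)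
    (fun j hj => by have := (hL j hj).1; have := hypos' j; linarith)
    (by
      rw [sub_zero]
      refine hy0'.trans ?_
      exact mul_le_mul_of_nonneg_left (hL 0 hJ).1 (by norm_num))
    (fun j hj => by
      have h1 := (hL j (by omega)).2
      have h2 := (hL (j + 1) hj).1
      rw [hy1] at h2
      linarith)
  have hξpos : ∀ j, 0 < ξ j := by
    intro j
    have : (0 : ℝ) < ξ j := lt_of_lt_of_le (by linarith) (hξN j)
    exact_mod_cast this
  refine ⟨μ / ε, _, Tr_tendsto hε (fT_cont ξ J) hx (fun y hy => fT_zero ξ J hy)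
    (gn_cont hε ξ J) (fun t ht ht1 => gs_eq_gn ξ hξpos J hx ht ht1), ?_⟩
  rw [main_part hε ξ hξpos J]
  have hfar := far (x := x) hε (by linarith) hμ0 (hμ1.trans (by norm_num)) ξ J
    (N := N) (by linarith) (fun j _ => hξN j)
  have hmain : (J : ℝ) / 6 ≤ ‖-2 * Complex.I * E (μ / ε) * ∑ j ∈ Finset.range J,
      E (ξ j * x - μ * ((1 - (ξ j : ℝ) ^ (-ε)) / ε)) *
        Wf ε (μ * (ξ j : ℝ) ^ (-ε)) (ξ j * (Real.pi / 2))‖ := by
    rw [norm_mul, norm_mul, norm_mul, E_norm, Complex.norm_I, norm_neg, Complex.norm_ofNat, mul_one,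
      mul_one]
    have := sum_lower (J := J) (fun j => (ξ j : ℝ) * x - μ * ((1 - (ξ j : ℝ) ^ (-ε)) / ε))
      (fun j => Si (ξ j * (Real.pi / 2)))
      (fun j => Wf ε (μ * (ξ j : ℝ) ^ (-ε)) (ξ j * (Real.pi / 2))) ?_ ?_ hcos
    · linarith
    · intro j _
      apply Si_ge
      have := hξN j
      nlinarith
    · intro j _
      have hj := hξN j
      have hj0 : (0 : ℝ) < ξ j := by linarith
      apply Wbound hε hε1 (by positivity)
      · have : (ξ j : ℝ) ^ (-ε) ≤ 1 :=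
          Real.rpow_le_one_of_one_le_of_nonpos (by linarith) (by linarith)
        calc μ * (ξ j : ℝ) ^ (-ε) ≤ μ * 1 := mul_le_mul_of_nonneg_left this hμ0
          _ ≤ _ := by linarith
      · nlinarith
  have hfar' : ‖∫ t in (Real.pi / 2)..(3 * Real.pi), gs ε (μ / ε) (fT ξ J) x t‖ ≤ J / 12 := by
    refine hfar.trans ?_
    have : (J : ℝ) * (2 / N * (2 + 10 * (2 + CG))) ≤ J * (1 / 12) :=
      mul_le_mul_of_nonneg_left hN' (Nat.cast_nonneg J)
    linarith
  have h3 := norm_sub_norm_le (-2 * Complex.I * E (μ / ε) * ∑ j ∈ Finset.range J,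
      E (ξ j * x - μ * ((1 - (ξ j : ℝ) ^ (-ε)) / ε)) *
        Wf ε (μ * (ξ j : ℝ) ^ (-ε)) (ξ j * (Real.pi / 2)))
      (-∫ t in (Real.pi / 2)..(3 * Real.pi), gs ε (μ / ε) (fT ξ J) x t)
  rw [norm_neg, sub_neg_eq_add] at h3
  linarith

end Pool.Agent.V1191.Car
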